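import Pool.Agent.R755.Bal.Core
import Pool.Agent.R755.Bal.Pos

/-!
# Vector balancing in convex bodies with Gaussian barycenter at the origin
-/

set_option autoImplicit false

namespace Pool.Agent.Results.MP_0ffb5f_gt.BarycenterAtOrigin

open MeasureTheory ProbabilityTheory Set
open scoped Pointwise ENNReal

/-- `ℝⁿ` with its Euclidean structure. -/
abbrev E (n : ℕ) := EuclideanSpace ℝ (Fin n)

/-- The standard Gaussian probability measure of a subset of `ℝⁿ`. -/
noncomputable def gauss (n : ℕ) (V : Set (E n)) : ℝ := (stdGaussian (E n)).real V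

/-- The vector balancing constant `β(B₂ⁿ, V)`: the supremum over all `n`-tuples of vectors of the
closed Euclidean unit ball of the least gauge `‖·‖_V` of a signed sum. -/
noncomputable def beta (n : ℕ) (V : Set (E n)) : ℝ≥0∞ :=
  ⨆ u : {u : Fin n → E n // ∀ i, ‖u i‖ ≤ 1},
    ⨅ ε : {ε : Fin n → ℝ // ∀ i, ε i = 1 ∨ ε i = -1},
      ENNReal.ofReal (gauge V (∑ i, ε.1 i • u.1 i))

/-- The bound. -/
noncomputable def g (p : ℝ) : ℝ := 100 * (1 + 8 * √(Real.log (100 / p)) / p)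

theorem g_anti : AntitoneOn g (Ioc 0 1) := by
  intro p hp q hq hpq
  unfold g
  have h1 : √(Real.log (100 / q)) ≤ √(Real.log (100 / p)) := by
    apply Real.sqrt_le_sqrt
    apply Real.log_le_log (div_pos (by norm_num) hq.1)
    exact div_le_div_of_nonneg_left (by norm_num) hp.1 hpq
  have h2 : 8 * √(Real.log (100 / q)) / q ≤ 8 * √(Real.log (100 / p)) / p :=
    div_le_div₀ (by positivity) (by linarith) hp.1 hpq
  linarith

theorem g_pos {p : ℝ} (hp : 0 < p) : 0 < g p := by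
  have h1 : 0 ≤ 8 * √(Real.log (100 / p)) / p := by positivity
  unfold g
  linarith

/-- The pointwise form, for any number of vectors. -/
theorem pointwise (n m : ℕ) (V : Set (E n)) (hV : IsClosed V) (hc : Convex ℝ V)
    (hp : 0 < gauss n V) (hb : ∫ x in V, x ∂(stdGaussian (E n)) = 0)
    (u : Fin m → E n) (hu : ∀ i, ‖u i‖ ≤ 1) :
    ∃ ε : Fin m → ℝ, (∀ i, ε i = 1 ∨ ε i = -1) ∧
      gauge V (∑ i, ε i • u i) ≤ g (gauss n V) := by
  obtain ⟨ε, h1, h2⟩ := Pool.Agent.R755.Bal.core V hV hc (gauss n V) hp le_rfl 0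
    (by rw [hb, smul_zero]) 0 (by simp) u hu
  refine ⟨ε, h1, ?_⟩
  have hg : 100 * (1 + 4 * (2 * √(Real.log (100 / gauss n V)) + 0) / gauss n V) =
      g (gauss n V) := by
    unfold g
    ring
  rw [hg, add_zero] at h2
  apply gauge_le_of_mem (g_pos hp).le
  rw [mem_smul_set_iff_inv_smul_mem₀ (g_pos hp).ne']
  exact h2

/-- There is a non-increasing `g : (0,1] → [0,∞)`, not depending on the dimension, such that
`β(B₂ⁿ, V) ≤ g (γₙ(V))` for every `n ≥ 1` and every convex body `V` of `ℝⁿ` having the origin in its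
interior and its Gaussian barycenter at the origin. -/
theorem result :
    ∃ g : ℝ → ℝ, AntitoneOn g (Ioc 0 1) ∧ (∀ p ∈ Ioc (0 : ℝ) 1, 0 ≤ g p) ∧
      ∀ n : ℕ, 1 ≤ n → ∀ V : Set (E n), IsCompact V → Convex ℝ V → 0 ∈ interior V →
        ∫ x in V, x ∂(stdGaussian (E n)) = 0 →
          gauss n V ∈ Ioc (0 : ℝ) 1 ∧ beta n V ≤ ENNReal.ofReal (g (gauss n V)) := by
  refine ⟨g, g_anti, fun p hp => (g_pos hp.1).le, fun n _ V hV hc h0 hb => ?_⟩
  have hpos : 0 < gauss n V := Pool.Agent.R755.Bal.gauss_pos V ⟨0, h0⟩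
  have hle : gauss n V ≤ 1 := by
    unfold gauss
    exact measureReal_le_one
  refine ⟨⟨hpos, hle⟩, ?_⟩
  apply iSup_le
  rintro ⟨u, hu⟩
  obtain ⟨ε, h1, h2⟩ := pointwise n n V hV.isClosed hc hpos hb u hu
  exact (iInf_le _ (⟨ε, h1⟩ : {ε : Fin n → ℝ // ∀ i, ε i = 1 ∨ ε i = -1})).trans
    (ENNReal.ofReal_le_ofReal h2)

end Pool.Agent.Results.MP_0ffb5f_gt.BarycenterAtOrigin
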